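import Mathlib
import Pool.Agent.Y442.EC.HC3

/-!
Vojta's conjecture on canonical degrees of curves on surfaces fails, to leading order in the genus, on
blow-ups of `E × H`, where `E = ℂ / ℤ[i]` and `H` is any smooth projective curve of genus `0`, `1` or
`2` (a double cover `y² = F(x)` of the line).

`CoverCurve L F`, `HPoint F`, and the genus and the canonical degree of a curve are defined in
`Pool.Agent.Y442.EC.HCDefs`, `gaussPair` (a basis of the lattice `ℤ[i]`) in `Pool.Agent.Y442.EC.SG`.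
-/

open H4EP Pool.Agent.Y442.EC

namespace Pool.Agent.Results.MP_79ab39_ag.KodairaZeroOne

/-- `F` is a squarefree polynomial of degree `2 γ + 2`, and `H` is the smooth projective curve
`y² = F(x)`, of genus `γ`.

1. For every elliptic curve `E = ℂ / Λ` and every such `H` there is a countable set `Z ⊂ ℂ` such that for
every `s ∉ Z`: there are exactly eight points `(0, (a, b))` of `E × H` with
`a - s ∈ {1, -1, -1/3, -3}`, and if `X` is the blow-up of `E × H` at a finite set which contains these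
points then `X` contains curves `C` of arbitrarily large genus `g` with
`K_X · C ≥ (2 + 4 / (γ + 1)) (g - 1) - 64`.

2. For `E = ℂ / ℤ[i]` and the twelve points with `a - s ∈ {1, -1, -1/3, -3, (-3 ± 4 i) / 5}` the surface
`X` contains curves `C` of arbitrarily large genus `g` with
`K_X · C ≥ (2 + 8 / (γ + 1)) (g - 1) - 96`.

3. In particular, for `E = ℂ / ℤ[i]` and every such `H` of genus `γ ≤ 2` there is a set of twelve points
of `E × H` such that on every blow-up `X` of `E × H` at a finite set which contains them, and for every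
`ε < 2/3` and every `B`, there are curves `C` of arbitrarily large genus with
`K_X · C > (4 + ε) (g - 1) + B`. -/
theorem result :
    (∀ (L : PeriodPair) (F : Polynomial ℂ) (γ : ℕ), Squarefree F → F.natDegree = 2 * γ + 2 →
      ∃ Z : Set ℂ, Z.Countable ∧ ∀ s : ℂ, s ∉ Z →
        ∃ S₀ : Finset (Torus L × HPoint F), S₀.card = 8 ∧
          (∀ p, p ∈ S₀ ↔ p.1 = 0 ∧ p.2.x - s ∈ ({1, -1, -1 / 3, -3} : Set ℂ)) ∧
          ∀ S : Finset (Torus L × HPoint F), S₀ ⊆ S → ∀ g₀ : ℕ,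
            ∃ C : CoverCurve L F, g₀ ≤ C.genus ∧
              (2 + 4 / ((γ : ℝ) + 1)) * ((C.genus : ℝ) - 1) - 64 ≤ C.canonicalDegree S) ∧
    (∀ (F : Polynomial ℂ) (γ : ℕ), Squarefree F → F.natDegree = 2 * γ + 2 →
      ∃ Z : Set ℂ, Z.Countable ∧ ∀ s : ℂ, s ∉ Z →
        ∃ S₀ : Finset (Torus gaussPair × HPoint F), S₀.card = 12 ∧
          (∀ p, p ∈ S₀ ↔ p.1 = 0 ∧ p.2.x - s ∈ ({1, -1, -1 / 3, -3, (-3 + 4 * Complex.I) / 5,
            (-3 - 4 * Complex.I) / 5} : Set ℂ)) ∧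
          ∀ S : Finset (Torus gaussPair × HPoint F), S₀ ⊆ S → ∀ g₀ : ℕ,
            ∃ C : CoverCurve gaussPair F, g₀ ≤ C.genus ∧
              (2 + 8 / ((γ : ℝ) + 1)) * ((C.genus : ℝ) - 1) - 96 ≤ C.canonicalDegree S) ∧
    (∀ (F : Polynomial ℂ) (γ : ℕ), Squarefree F → F.natDegree = 2 * γ + 2 → γ ≤ 2 →
      ∃ S₀ : Finset (Torus gaussPair × HPoint F), S₀.card = 12 ∧
        ∀ S : Finset (Torus gaussPair × HPoint F), S₀ ⊆ S →
          ∀ ε : ℝ, ε < 2 / 3 → ∀ (B : ℝ) (g₀ : ℕ), ∃ C : CoverCurve gaussPair F, g₀ ≤ C.genus ∧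
            (4 + ε) * ((C.genus : ℝ) - 1) + B < C.canonicalDegree S) := by
  have part2 : ∀ (F : Polynomial ℂ) (γ : ℕ), Squarefree F → F.natDegree = 2 * γ + 2 →
      ∃ Z : Set ℂ, Z.Countable ∧ ∀ s : ℂ, s ∉ Z →
        ∃ S₀ : Finset (Torus gaussPair × HPoint F), S₀.card = 12 ∧
          (∀ p, p ∈ S₀ ↔ p.1 = 0 ∧ p.2.x - s ∈ ({1, -1, -1 / 3, -3, (-3 + 4 * Complex.I) / 5,
            (-3 - 4 * Complex.I) / 5} : Set ℂ)) ∧
          ∀ S : Finset (Torus gaussPair × HPoint F), S₀ ⊆ S → ∀ g₀ : ℕ,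
            ∃ C : CoverCurve gaussPair F, g₀ ≤ C.genus ∧
              (2 + 8 / ((γ : ℝ) + 1)) * ((C.genus : ℝ) - 1) - 96 ≤ C.canonicalDegree S := by
    intro F γ hF hdeg
    refine ⟨badS gaussPair F A6, badS_countable hF.ne_zero A6, fun s hs => ?_⟩
    obtain ⟨S₀, h1, h2, h3⟩ := curves6 hF hdeg hs
    refine ⟨S₀, h1, h2, fun S hS g₀ => ?_⟩
    obtain ⟨C, hC, h4⟩ := h3 S hS g₀
    refine ⟨C, hC, ?_⟩
    have h5 : (2 * (γ : ℝ) + 10) * ((C.genus : ℝ) - 1) - 96 * (γ + 1)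
        ≤ (γ + 1) * (C.canonicalDegree S : ℝ) := by exact_mod_cast h4
    have hγ : (0 : ℝ) < (γ : ℝ) + 1 := by positivity
    have h6 : (2 + 8 / ((γ : ℝ) + 1)) * ((C.genus : ℝ) - 1) - 96
        = ((2 * (γ : ℝ) + 10) * ((C.genus : ℝ) - 1) - 96 * (γ + 1)) / (γ + 1) := by
      field_simp
      ring
    rw [h6, div_le_iff₀ hγ]
    linarith
  refine ⟨?_, part2, ?_⟩
  · intro L F γ hF hdeg
    refine ⟨badS L F A4, badS_countable hF.ne_zero A4, fun s hs => ?_⟩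
    obtain ⟨S₀, h1, h2, h3⟩ := curves4 L hF hdeg hs
    refine ⟨S₀, h1, h2, fun S hS g₀ => ?_⟩
    obtain ⟨C, hC, h4⟩ := h3 S hS g₀
    refine ⟨C, hC, ?_⟩
    have h5 : (2 * (γ : ℝ) + 6) * ((C.genus : ℝ) - 1) - 64 * (γ + 1)
        ≤ (γ + 1) * (C.canonicalDegree S : ℝ) := by exact_mod_cast h4
    have hγ : (0 : ℝ) < (γ : ℝ) + 1 := by positivity
    have h6 : (2 + 4 / ((γ : ℝ) + 1)) * ((C.genus : ℝ) - 1) - 64
        = ((2 * (γ : ℝ) + 6) * ((C.genus : ℝ) - 1) - 64 * (γ + 1)) / (γ + 1) := by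
      field_simp
      ring
    rw [h6, div_le_iff₀ hγ]
    linarith
  · intro F γ hF hdeg hγ2
    obtain ⟨Z, hZ, h⟩ := part2 F γ hF hdeg
    obtain ⟨s, hs⟩ := (hZ.dense_compl ℂ).nonempty
    obtain ⟨S₀, h1, -, h3⟩ := h s hs
    refine ⟨S₀, h1, fun S hS ε hε B g₀ => ?_⟩
    obtain ⟨n, hn⟩ := exists_nat_gt ((96 + B) / (2 / 3 - ε))
    obtain ⟨C, hC, h4⟩ := h3 S hS (max g₀ (n + 1))
    refine ⟨C, (le_max_left _ _).trans hC, ?_⟩
    have hg : (n : ℝ) + 1 ≤ (C.genus : ℝ) := by exact_mod_cast (le_max_right _ _).trans hC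
    have hε' : 0 < 2 / 3 - ε := by linarith
    have h5 : 96 + B < (2 / 3 - ε) * n := by
      rw [div_lt_iff₀ hε'] at hn
      linarith
    have h6 : (2 / 3 - ε) * n ≤ (2 / 3 - ε) * ((C.genus : ℝ) - 1) :=
      mul_le_mul_of_nonneg_left (by linarith) hε'.le
    have hγ3 : (8 : ℝ) / 3 ≤ 8 / ((γ : ℝ) + 1) := by
      have : (γ : ℝ) ≤ 2 := by exact_mod_cast hγ2
      apply div_le_div_of_nonneg_left (by norm_num) (by positivity)
      linarith
    have hn0 : (0 : ℝ) ≤ (n : ℝ) := Nat.cast_nonneg n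
    have h7 : (14 / 3 : ℝ) * ((C.genus : ℝ) - 1)
        ≤ (2 + 8 / ((γ : ℝ) + 1)) * ((C.genus : ℝ) - 1) :=
      mul_le_mul_of_nonneg_right (by linarith) (by linarith)
    linarith

end Pool.Agent.Results.MP_79ab39_ag.KodairaZeroOne
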