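import Mathlib
import Pool.Agent.Y3.VJ.T

/-!
# Vojta's inequality fails by a positive proportion for curves of arbitrarily large genus

Let `E = ℂ / Λ` be an elliptic curve, `B` a smooth projective curve of genus `b` and `β : B → ℙ¹` a
morphism of degree `k ≥ 2` (`Cover`, in `Pool.Agent.Y3.VJ.D`). Let `u = 6` for `E = ℂ / ℤ[i]`, and
`u = 4` in general. We give a set `S₀` of `u k` points of the curve `{0} × B` and an infinite
sequence of curves `C` on the blow-up `X` of `E × B` at `S₀` (or at any larger finite set) whose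
geometric genus `g` tends to infinity, with

`K_X · C ≥ ((2 b - 2 + u k) / (b - 1 + k)) (g - 1) - 2 k`.

For `E = ℂ / ℤ[i]` the factor is greater than `4` as soon as `k > b - 1`, and every curve `B` has
such morphisms `β`, of every large degree; for `k → ∞` the factor tends to `6`, and for `B = ℙ¹`,
`k = 2` it is `10`. So for every smooth projective curve `B` the inequality
`K_X · C ≤ (4 + ε) (g - 1) + B(ε)` fails on a blow-up `X` of `(ℂ / ℤ[i]) × B`, for curves of
arbitrarily large genus. The Kodaira dimension of `X` is `- ∞` for `b = 0`, `0` for `b = 1` (`X` is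
the blow-up of an abelian surface) and `1` for `b ≥ 2`. For an arbitrary elliptic curve `E` and
`B = ℙ¹` the factor is `4 + 2 / (k - 1)`, which is `6` for `k = 2`, with eight blown-up points.

The curves: let `h` be the elliptic function with zeros `0`, `(ω₁ + ω₂) / 2` and poles `ω₁ / 2`,
`ω₂ / 2`, and let `f (t) = h (N t) / h (t) + s`, `N` even, a function of degree `2 N ^ 2`. All the
solutions of `f (t) = ∞, s, s + 1, s - 1` are torsion points, killed by
`m = 2 N (N ^ 4 - 1)`, and so are the solutions of `f (t) = s + i, s - i` if `Λ = ω₁ ℤ[i]`, as then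
`h (i z) = i h (z)`. The curve `C` is `{(m t, y) : f (t) = β (y)}`.
-/

open scoped OnePoint
open H4EP Pool.Agent.TH172.ER Pool.Agent.Y3.VJ

namespace Pool.Agent.Results.MP_79ab39_ag.LargeGenus

/-- curves of large genus, from a sequence -/
theorem violation {L : PeriodPair} {B : Cover} {S : Finset (Torus L × B.Pt)} {u : ℚ}
    (hpos : 0 < B.genus - 1 + B.k)
    (h : ∀ N : ℕ, 2 ≤ N → Even N → ∃ C : CurveOn L B,
      C.genus = 1 + (B.genus - 1 + B.k) * (2 * (N : ℚ) ^ 2) ∧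
      (2 * B.genus - 2 + u * B.k) * (2 * (N : ℚ) ^ 2) - 2 * B.k ≤ C.canonicalDegree S)
    {A : ℝ} (hA : A * (B.genus - 1 + B.k : ℚ) < (2 * B.genus - 2 + u * B.k : ℚ)) (c G : ℝ) :
    ∃ C : CurveOn L B, G ≤ (C.genus : ℝ) ∧
      A * ((C.genus : ℝ) - 1) + c < (C.canonicalDegree S : ℝ) := by
  set δ : ℝ := (2 * B.genus - 2 + u * B.k : ℚ) - A * (B.genus - 1 + B.k : ℚ) with hδ
  have hδ0 : 0 < δ := sub_pos.2 hA
  have hpos' : (0 : ℝ) < ((B.genus - 1 + B.k : ℚ) : ℝ) := by exact_mod_cast hpos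
  obtain ⟨n, hn⟩ := exists_nat_gt (max (max (G / ((B.genus - 1 + B.k : ℚ) : ℝ))
    ((c + 2 * B.k) / δ)) 1)
  have hn1 : (1 : ℝ) < n := lt_of_le_of_lt (le_max_right _ _) hn
  have hnG : G / ((B.genus - 1 + B.k : ℚ) : ℝ) < n :=
    lt_of_le_of_lt ((le_max_left _ _).trans (le_max_left _ _)) hn
  have hnc : (c + 2 * B.k) / δ < n :=
    lt_of_le_of_lt ((le_max_right _ _).trans (le_max_left _ _)) hn
  have hn1' : 1 < n := by exact_mod_cast hn1
  obtain ⟨C, h1, h2⟩ := h (2 * n) (by omega) (even_two_mul n)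
  have e1 : (C.genus : ℝ) = 1 + ((B.genus - 1 + B.k : ℚ) : ℝ) * (8 * (n : ℝ) ^ 2) := by
    rw [h1]
    push_cast
    ring
  have e2 : ((2 * B.genus - 2 + u * B.k : ℚ) : ℝ) * (8 * (n : ℝ) ^ 2) - 2 * B.k
      ≤ (C.canonicalDegree S : ℝ) := by
    have h3 : (((2 * B.genus - 2 + u * B.k) * (2 * ((2 * n : ℕ) : ℚ) ^ 2) - 2 * B.k : ℚ) : ℝ)
        ≤ (C.canonicalDegree S : ℝ) := by exact_mod_cast h2
    refine le_trans (le_of_eq ?_) h3
    push_cast
    ring
  have hnn : (n : ℝ) ≤ 8 * (n : ℝ) ^ 2 := by nlinarith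
  refine ⟨C, ?_, ?_⟩
  · rw [e1]
    rw [div_lt_iff₀ hpos'] at hnG
    have := mul_le_mul_of_nonneg_left hnn hpos'.le
    linarith
  · rw [e1]
    rw [div_lt_iff₀ hδ0] at hnc
    have h4 := mul_le_mul_of_nonneg_left hnn hδ0.le
    have h5 : δ * (8 * (n : ℝ) ^ 2) = ((2 * B.genus - 2 + u * B.k : ℚ) : ℝ) * (8 * (n : ℝ) ^ 2)
        - A * (((B.genus - 1 + B.k : ℚ) : ℝ) * (8 * (n : ℝ) ^ 2)) := by
      rw [hδ]
      ring
    linarith

/-- `E = ℂ / Λ`, `Λ = ℤ ω₁ + ℤ ω₂`, is an elliptic curve and `β : B → ℙ¹` is a morphism of degree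
`k` of a smooth projective curve `B` of genus `b`, ramified somewhere (that is, `k ≥ 2`). The set `U`
is `{1, -1}`, or `{1, -1, i, -i}` if `Λ = ω₁ ℤ[i]`; let `u = |U| + 2` (so `u = 4` or `u = 6`).

For all complex numbers `s` outside a countable set the following holds. Let `X` be the blow-up of
`E × B` at the `u k` points `(0, y)` with `β y = ∞`, `β y = s` or `β y = s + ε`, `ε ∈ U`, or at a
larger finite set `S`. For every even `N ≥ 2` there is a curve `C` with
`g - 1 = (b - 1 + k) 2 N ^ 2` and `K_X · C ≥ (2 b - 2 + u k) 2 N ^ 2 - 2 k`. So for every real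
`A < (2 b - 2 + u k) / (b - 1 + k)` and all real `c`, `G` there is a curve `C` with `g ≥ G` and
`K_X · C > A (g - 1) + c`. In particular, if `2 b - 2 < (u - 4) k`, there is an `ε > 0` such that for
all `c`, `G` there is a curve `C` with `g ≥ G` and `K_X · C > (4 + ε) (g - 1) + c`. -/
theorem result (L : PeriodPair) (U : Finset ℂ)
    (hU : U = {1, -1} ∨ U = {1, -1, Complex.I, -Complex.I} ∧ L.ω₂ = Complex.I * L.ω₁)
    (B : Cover) (hB : B.ram.Nonempty) :
    ∃ Z : Set ℂ, Z.Countable ∧ ∀ s : ℂ, s ∉ Z → ∀ S : Finset (Torus L × B.Pt),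
      (∀ y : B.Pt, (B.β y = ∞ ∨ B.β y = (s : ℂ) ∨ ∃ ε ∈ U, B.β y = (s + ε : ℂ)) →
        ((0 : Torus L), y) ∈ S) →
      (∀ N : ℕ, 2 ≤ N → Even N → ∃ C : CurveOn L B,
        C.genus = 1 + (B.genus - 1 + B.k) * (2 * (N : ℚ) ^ 2) ∧
        (2 * B.genus - 2 + (U.card + 2) * B.k) * (2 * (N : ℚ) ^ 2) - 2 * B.k
          ≤ C.canonicalDegree S) ∧
      (∀ A : ℝ, A < ((2 * B.genus - 2 + (U.card + 2) * B.k) / (B.genus - 1 + B.k) : ℚ) →
        ∀ c G : ℝ, ∃ C : CurveOn L B, G ≤ (C.genus : ℝ) ∧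
          A * ((C.genus : ℝ) - 1) + c < (C.canonicalDegree S : ℝ)) ∧
      (2 * B.genus - 2 < (U.card - 2) * B.k → ∃ ε > (0 : ℝ), ∀ c G : ℝ, ∃ C : CurveOn L B,
        G ≤ (C.genus : ℝ) ∧ (4 + ε) * ((C.genus : ℝ) - 1) + c < (C.canonicalDegree S : ℝ)) := by
  have hgood : Good L U := by
    rcases hU with rfl | ⟨rfl, hL⟩
    · exact good_pm
    · exact good_I hL
  have hpos : 0 < B.genus - 1 + B.k := by
    unfold Cover.genus
    have h1 : 0 < ∑ y ∈ B.ram, ((B.e y : ℚ) - 1) := by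
      apply Finset.sum_pos _ hB
      intro y hy
      have h2 : 1 < B.e y := (B.mem_ram y).1 hy
      have h3 : (1 : ℚ) < B.e y := by exact_mod_cast h2
      linarith
    linarith
  have hpos' : (0 : ℝ) < ((B.genus - 1 + B.k : ℚ) : ℝ) := by exact_mod_cast hpos
  refine ⟨badS L B U, badS_countable B U, fun s hs S hS => ?_⟩
  have main : ∀ N : ℕ, 2 ≤ N → Even N → ∃ C : CurveOn L B,
      C.genus = 1 + (B.genus - 1 + B.k) * (2 * (N : ℚ) ^ 2) ∧
      (2 * B.genus - 2 + ((U.card : ℚ) + 2) * B.k) * (2 * (N : ℚ) ^ 2) - 2 * B.k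
        ≤ C.canonicalDegree S := by
    intro N hN he
    refine ⟨CB hs hN he, genus_CB hs hN he, ?_⟩
    refine canonicalDegree_CB hs hN he hgood S
      (fun y hy => hS y (Or.inl ((B.mem_fibre _ _).1 hy))) ?_
    intro c hc y hy
    rw [B.mem_fibre] at hy
    rcases Finset.mem_insert.1 hc with rfl | hc
    · rw [add_zero] at hy
      exact hS y (Or.inr (Or.inl hy))
    · exact hS y (Or.inr (Or.inr ⟨c, hc, hy⟩))
  refine ⟨main, fun A hA c G => violation hpos main ?_ c G, fun hb => ?_⟩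
  · rw [Rat.cast_div, lt_div_iff₀ hpos'] at hA
    exact hA
  · have h4 : (4 : ℚ) * (B.genus - 1 + B.k) < 2 * B.genus - 2 + ((U.card : ℚ) + 2) * B.k := by
      linarith
    have h4' : (4 : ℝ) * ((B.genus - 1 + B.k : ℚ) : ℝ)
        < ((2 * B.genus - 2 + ((U.card : ℚ) + 2) * B.k : ℚ) : ℝ) := by exact_mod_cast h4
    refine ⟨((((2 * B.genus - 2 + ((U.card : ℚ) + 2) * B.k : ℚ) : ℝ)
      - 4 * ((B.genus - 1 + B.k : ℚ) : ℝ)) / 2) / ((B.genus - 1 + B.k : ℚ) : ℝ),
      div_pos (by linarith) hpos', fun c G => violation hpos main ?_ c G⟩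
    rw [add_mul, div_mul_cancel₀ _ hpos'.ne']
    linarith

end Pool.Agent.Results.MP_79ab39_ag.LargeGenus
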